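import Mathlib
import Pool.Agent.X202.SigmaProp

set_option autoImplicit false

/-!
# MP_441f99_an, Q1: `(¬ c₀)` implies `(Σ)` for every hereditary cover of `ℕ`
-/

open Pool.Agent.X202.SigmaProp

namespace Pool.Agent.Results.MP_441f99_an.NotC0ImpliesSigma

/-- Closed under subsets. -/
def Hereditary (F : Set (Finset ℕ)) : Prop := ∀ A ∈ F, ∀ B ⊆ A, B ∈ F

/-- Contains every singleton. -/
def Covers (F : Set (Finset ℕ)) : Prop := ∀ n : ℕ, ({n} : Finset ℕ) ∈ F

/-- The closure of `F` in the power set of `ℕ`: the sets all of whose finite subsets lie in `F`. -/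
def clos (F : Set (Finset ℕ)) : Set (Set ℕ) := {A | ∀ T : Finset ℕ, (T : Set ℕ) ⊆ A → T ∈ F}

/-- The norm `‖x‖_F = sup_{T ∈ F} ∑_{i ∈ T} |x i|`. -/
noncomputable def normF (F : Set (Finset ℕ)) (x : ℕ →₀ ℝ) : ℝ :=
  sSup {r | ∃ T ∈ F, r = ∑ i ∈ T, |x i|}

/-- The `ℓ₁` norm. -/
noncomputable def norm1 (x : ℕ →₀ ℝ) : ℝ := ∑ i ∈ x.support, |x i|

/-- `P_A x = x · χ_A`. -/
noncomputable def proj (A : Set ℕ) (x : ℕ →₀ ℝ) : ℕ →₀ ℝ :=
  haveI := Classical.decPred (· ∈ A); x.filter (· ∈ A)

/-- `F`-supported normalized block basic sequences. -/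
structure IsBlock (F : Set (Finset ℕ)) (x : ℕ → ℕ →₀ ℝ) : Prop where
  mem : ∀ n, (x n).support ∈ F
  norm : ∀ n, normF F (x n) = 1
  order : ∀ n, ∀ i ∈ (x n).support, ∀ j ∈ (x (n + 1)).support, i < j

/-- The property `(¬ c₀)`. -/
def NotC0 (F : Set (Finset ℕ)) : Prop :=
  ∀ x, IsBlock F x → ⨆ A ∈ clos F, ∑' n, ENNReal.ofReal (normF F (proj A (x n))) = ⊤

/-- The property `(Σ)`. -/
def PropSigma (F : Set (Finset ℕ)) : Prop :=
  ∀ x, IsBlock F x → ∃ A ∈ clos F, ∑' n, ENNReal.ofReal (norm1 (proj A (x n))) = ⊤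

variable {F : Set (Finset ℕ)}

theorem sum_le_norm1 (x : ℕ →₀ ℝ) (T : Finset ℕ) : ∑ i ∈ T, |x i| ≤ norm1 x := by
  classical
  unfold norm1
  calc ∑ i ∈ T, |x i| = ∑ i ∈ T.filter (fun i => i ∈ x.support), |x i| := by
        rw [Finset.sum_filter]
        refine Finset.sum_congr rfl fun i _ => ?_
        split_ifs with h
        · rfl
        · rw [Finsupp.notMem_support_iff.1 h, abs_zero]
    _ ≤ _ := Finset.sum_le_sum_of_subset_of_nonneg
        (fun i hi => (Finset.mem_filter.1 hi).2) fun i _ _ => abs_nonneg _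

theorem normF_eq {x : ℕ →₀ ℝ} (h : x.support ∈ F) : normF F x = norm1 x := by
  unfold normF
  refine le_antisymm (csSup_le ⟨_, x.support, h, rfl⟩ ?_) (le_csSup ⟨norm1 x, ?_⟩ ⟨x.support, h, rfl⟩)
  · rintro r ⟨T, _, rfl⟩
    exact sum_le_norm1 x T
  · rintro r ⟨T, _, rfl⟩
    exact sum_le_norm1 x T

theorem Blk.order_lt (b : Blk F) {n m : ℕ} (h : n < m) : ∀ i ∈ b.D n, ∀ j ∈ b.D m, i < j := by
  induction m, h using Nat.le_induction with
  | base => exact b.order n
  | succ m hm ih =>
    intro i hi j hj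
    obtain ⟨l, hl⟩ := b.nonempty m
    exact (ih i hi l hl).trans (b.order m l hl j hj)

/-- the order relation of a block sequence -/
theorem IsBlock.order_lt {x : ℕ → ℕ →₀ ℝ} (hx : IsBlock F x) {n m : ℕ} (h : n < m) :
    ∀ i ∈ (x n).support, ∀ j ∈ (x m).support, i < j := by
  induction m, h using Nat.le_induction with
  | base => exact hx.order n
  | succ m hm ih =>
    intro i hi j hj
    have hne : (x m).support.Nonempty := by
      rw [Finset.nonempty_iff_ne_empty]
      intro h0
      have := hx.norm m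
      rw [normF_eq (hx.mem m)] at this
      unfold norm1 at this
      rw [h0, Finset.sum_empty] at this
      exact zero_ne_one this
    obtain ⟨l, hl⟩ := hne
    exact (ih i hi l hl).trans (hx.order m l hl j hj)

theorem IsBlock.disj {x : ℕ → ℕ →₀ ℝ} (hx : IsBlock F x) {n m i : ℕ} (h1 : i ∈ (x n).support)
    (h2 : i ∈ (x m).support) : n = m := by
  rcases lt_trichotomy n m with h | h | h
  · exact absurd (hx.order_lt h i h1 i h2) (lt_irrefl _)
  · exact h
  · exact absurd (hx.order_lt h i h2 i h1) (lt_irrefl _)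

/-- the block system of a block sequence -/
theorem exists_blk {x : ℕ → ℕ →₀ ℝ} (hx : IsBlock F x) :
    ∃ b : Blk F, ∀ i, ∃ n, b.a i ≤ |x n i| := by
  classical
  let a : ℕ → ℝ := fun i => if h : ∃ n, i ∈ (x n).support then |x h.choose i| else 0
  have ha : ∀ n, ∀ i ∈ (x n).support, a i = |x n i| := by
    intro n i hi
    have h : ∃ n, i ∈ (x n).support := ⟨n, hi⟩
    simp only [a]
    rw [dif_pos h, hx.disj h.choose_spec hi]
  refine ⟨⟨fun n => (x n).support, a, fun i => ?_, hx.mem, fun n => ?_, hx.order, fun i hi => ?_⟩,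
    fun i => ?_⟩
  · simp only [a]
    split_ifs
    · exact abs_nonneg _
    · exact le_rfl
  · rw [Finset.sum_congr rfl (ha n), ← hx.norm n, normF_eq (hx.mem n)]
    rfl
  · simp only [a]
    rw [dif_neg]
    rintro ⟨m, hm⟩
    exact hi m hm
  · change ∃ n, a i ≤ |x n i|
    simp only [a]
    by_cases h : ∃ n, i ∈ (x n).support
    · exact ⟨h.choose, by rw [dif_pos h]⟩
    · exact ⟨0, by rw [dif_neg h]; exact abs_nonneg _⟩

theorem proj_apply (A : Set ℕ) (x : ℕ →₀ ℝ) (i : ℕ) (hi : i ∈ A) : proj A x i = x i := by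
  classical
  unfold proj
  exact Finsupp.filter_apply_pos _ _ hi

theorem proj_apply_not (A : Set ℕ) (x : ℕ →₀ ℝ) (i : ℕ) (hi : i ∉ A) : proj A x i = 0 := by
  classical
  unfold proj
  exact Finsupp.filter_apply_neg _ _ hi

theorem proj_support (A : Set ℕ) (x : ℕ →₀ ℝ) : (proj A x).support ⊆ x.support := by
  intro i hi
  rw [Finsupp.mem_support_iff] at hi ⊢
  by_cases h : i ∈ A
  · rwa [proj_apply A x i h] at hi
  · exact absurd (proj_apply_not A x i h) hi

theorem proj_support' (A : Set ℕ) (x : ℕ →₀ ℝ) : ((proj A x).support : Set ℕ) ⊆ A := by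
  intro i hi
  rw [Finset.mem_coe, Finsupp.mem_support_iff] at hi
  by_contra h
  exact hi (proj_apply_not A x i h)

/-- **Theorem.** `(¬ c₀)` implies `(Σ)`. -/
theorem result (F : Set (Finset ℕ)) (hF : Hereditary F) (_hcov : Covers F) (h : NotC0 F) :
    PropSigma F := by
  classical
  intro x hx
  by_contra hcon
  push Not at hcon
  obtain ⟨b, hb⟩ := exists_blk hx
  obtain ⟨b', C, hC⟩ := core hF b (by
    intro S hS1 hS2
    have hmono : Monotone S := monotone_nat_of_le_succ hS2
    set A : Set ℕ := ⋃ k, (S k : Set ℕ) with hA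
    have hAcl : A ∈ clos F := by
      intro T hT
      have : ∀ T : Finset ℕ, (T : Set ℕ) ⊆ A → ∃ k, T ⊆ S k := by
        intro T
        induction T using Finset.induction_on with
        | empty => exact fun _ => ⟨0, Finset.empty_subset _⟩
        | insert i T _ ih =>
          intro hT
          obtain ⟨k, hk⟩ := ih fun j hj => hT (by
            rw [Finset.coe_insert]; exact Set.mem_insert_of_mem _ hj)
          obtain ⟨l, hl⟩ := Set.mem_iUnion.1 (hT (by
            rw [Finset.coe_insert]; exact Set.mem_insert _ _) : i ∈ A)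
          refine ⟨max k l, fun j hj => ?_⟩
          rcases Finset.mem_insert.1 hj with rfl | hj
          · exact hmono (le_max_right k l) hl
          · exact hmono (le_max_left k l) (hk hj)
      obtain ⟨k, hk⟩ := this T hT
      exact hF _ (hS1 k) T hk
    have hne := hcon A hAcl
    refine ⟨(∑' n, ENNReal.ofReal (norm1 (proj A (x n)))).toReal, fun k => ?_⟩
    rw [← ENNReal.ofReal_le_iff_le_toReal hne, ENNReal.ofReal_sum_of_nonneg fun i _ => b.nonneg i]
    calc ∑ i ∈ S k, ENNReal.ofReal (b.a i) ≤ ∑ i ∈ S k, ∑' n, ENNReal.ofReal |x n i| := by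
          refine Finset.sum_le_sum fun i _ => ?_
          obtain ⟨n, hn⟩ := hb i
          exact (ENNReal.ofReal_le_ofReal hn).trans
            (ENNReal.le_tsum (f := fun n => ENNReal.ofReal |x n i|) n)
      _ = ∑' n, ∑ i ∈ S k, ENNReal.ofReal |x n i| :=
          (Summable.tsum_finsetSum fun i _ => ENNReal.summable).symm
      _ ≤ ∑' n, ENNReal.ofReal (norm1 (proj A (x n))) := by
          refine ENNReal.tsum_le_tsum fun n => ?_
          rw [← ENNReal.ofReal_sum_of_nonneg fun i _ => abs_nonneg _]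
          refine ENNReal.ofReal_le_ofReal ?_
          refine le_trans (le_of_eq ?_) (sum_le_norm1 (proj A (x n)) (S k))
          refine Finset.sum_congr rfl fun i hi => ?_
          rw [proj_apply A (x n) i (Set.mem_iUnion.2 ⟨k, hi⟩)])
  -- the new block sequence
  let y : ℕ → ℕ →₀ ℝ := fun n => Finsupp.indicator (b'.D n) fun i _ => b'.a i
  have hy : ∀ n i, y n i = if i ∈ b'.D n then b'.a i else 0 := by
    intro n i
    simp only [y]
    rw [Finsupp.indicator_apply]
    split_ifs <;> rfl
  have hysupp : ∀ n, (y n).support ⊆ b'.D n := by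
    intro n i hi
    rw [Finsupp.mem_support_iff, hy] at hi
    by_contra hni
    exact hi (if_neg hni)
  have hymem : ∀ n, (y n).support ∈ F := fun n => hF _ (b'.mem n) _ (hysupp n)
  have hsumy : ∀ n, ∀ T ⊆ b'.D n, ∑ i ∈ T, |y n i| = ∑ i ∈ T, b'.a i := by
    intro n T hT
    refine Finset.sum_congr rfl fun i hi => ?_
    rw [hy, if_pos (hT hi), abs_of_nonneg (b'.nonneg i)]
  have hyb : IsBlock F y := by
    refine ⟨hymem, fun n => ?_, fun n i hi j hj => b'.order n i (hysupp n hi) j (hysupp _ hj)⟩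
    rw [normF_eq (hymem n)]
    unfold norm1
    rw [← b'.sum_one n, ← hsumy n _ Finset.Subset.rfl]
    refine Finset.sum_subset (hysupp n) fun i _ hi => ?_
    rw [Finsupp.notMem_support_iff.1 hi, abs_zero]
  have htop := h y hyb
  have hle : ⨆ A ∈ clos F, ∑' n, ENNReal.ofReal (normF F (proj A (y n))) ≤ ENNReal.ofReal C := by
    refine iSup₂_le fun A hA => ?_
    refine ENNReal.tsum_le_of_sum_range_le fun N => ?_
    rw [← ENNReal.ofReal_sum_of_nonneg]
    · refine ENNReal.ofReal_le_ofReal ?_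
      have h1 : ∀ n, normF F (proj A (y n)) = ∑ i ∈ (proj A (y n)).support, b'.a i := by
        intro n
        rw [normF_eq (hF _ (hymem n) _ (proj_support A (y n)))]
        unfold norm1
        rw [← hsumy n _ ((proj_support A (y n)).trans (hysupp n))]
        refine Finset.sum_congr rfl fun i hi => ?_
        rw [proj_apply A (y n) i (proj_support' A (y n) hi)]
      rw [Finset.sum_congr rfl fun n _ => h1 n]
      rw [← Finset.sum_biUnion]
      · refine hC _ (hA _ ?_)
        intro i hi
        rw [Finset.mem_coe, Finset.mem_biUnion] at hi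
        obtain ⟨n, _, hn⟩ := hi
        exact proj_support' A (y n) hn
      · intro n _ m _ hnm
        rw [Function.onFun, Finset.disjoint_left]
        intro i hi hi'
        exact hnm (hyb.disj (proj_support A (y n) hi) (proj_support A (y m) hi'))
    · intro n _
      rw [normF_eq (hF _ (hymem n) _ (proj_support A (y n)))]
      exact Finset.sum_nonneg fun i _ => abs_nonneg _
  rw [htop, top_le_iff] at hle
  exact ENNReal.ofReal_ne_top hle

end Pool.Agent.Results.MP_441f99_an.NotC0ImpliesSigma
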